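import Mathlib

/-!
Linear digit systems: digits of rational numbers.
-/

set_option autoImplicit false
noncomputable section
namespace Pool.Agent.Helper48.UP

/-- the residue modulo `p` of a rational number whose denominator is prime to `p` -/
def dig (p : ℕ) (n : ℚ) : ZMod p := (n.num : ZMod p) * (n.den : ZMod p)⁻¹

/-- the map `T` -/
def stp (p : ℕ) (a b : ZMod p → ℚ) (n : ℚ) : ℚ :=
  (a (dig p n) + b (dig p n) * n - ((dig p (a (dig p n) + b (dig p n) * n)).val : ℚ)) / p

/-- the coefficients are `p`-adic integers, the linear ones units -/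
def IsSys (p : ℕ) (a b : ZMod p → ℚ) : Prop :=
  ∀ r, (a r).den.Coprime p ∧ (b r).den.Coprime p ∧ (b r).num.natAbs.Coprime p

/-- every rational `p`-adic integer has an ultimately periodic digit expansion -/
def UltPer (p : ℕ) (a b : ZMod p → ℚ) : Prop :=
  ∀ n : ℚ, n.den.Coprime p → ∃ N P : ℕ, 0 < P ∧
    ∀ k, N ≤ k → dig p ((stp p a b)^[k + P] n) = dig p ((stp p a b)^[k] n)

variable {p : ℕ} {x y : ℚ}

/-! ### rational p-adic integers -/

theorem I_add (hx : x.den.Coprime p) (hy : y.den.Coprime p) : (x + y).den.Coprime p :=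
  Nat.Coprime.coprime_dvd_left (Rat.add_den_dvd x y) (Nat.Coprime.mul_left hx hy)
theorem I_mul (hx : x.den.Coprime p) (hy : y.den.Coprime p) : (x * y).den.Coprime p :=
  Nat.Coprime.coprime_dvd_left (Rat.mul_den_dvd x y) (Nat.Coprime.mul_left hx hy)
theorem I_neg (hx : x.den.Coprime p) : (-x).den.Coprime p := by
  rwa [Rat.neg_den]
theorem I_sub (hx : x.den.Coprime p) (hy : y.den.Coprime p) : (x - y).den.Coprime p := by
  rw [sub_eq_add_neg]; exact I_add hx (I_neg hy)
theorem I_nat (n : ℕ) : ((n : ℚ)).den.Coprime p := by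
  rw [Rat.den_natCast]; exact Nat.coprime_one_left p
theorem I_inv (h0 : x ≠ 0) (hx : x.num.natAbs.Coprime p) : (x⁻¹).den.Coprime p := by
  rw [Rat.den_inv_of_ne_zero h0]; exact hx

/-- divisibility by `p` in the rational `p`-adic integers -/
theorem dig_eq_iff (hp : 2 ≤ p) (hx : x.den.Coprime p) (hy : y.den.Coprime p) :
    dig p x = dig p y ↔ ((x - y) / p).den.Coprime p := by
  have p0 : (p : ℚ) ≠ 0 := by
    have : p ≠ 0 := by omega
    exact_mod_cast this
  have ux : IsUnit (x.den : ZMod p) := (ZMod.isUnit_iff_coprime _ _).2 hx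
  have uy : IsUnit (y.den : ZMod p) := (ZMod.isUnit_iff_coprime _ _).2 hy
  have e1 : dig p x = dig p y ↔ (x.num : ZMod p) * y.den = y.num * x.den := by
    unfold dig
    constructor
    · intro h
      have h1 : (x.num : ZMod p) * (x.den : ZMod p)⁻¹ * (x.den * y.den) =
          (y.num : ZMod p) * (y.den : ZMod p)⁻¹ * (x.den * y.den) := by rw [h]
      have h2 := ZMod.mul_inv_of_unit _ ux
      have h3 := ZMod.mul_inv_of_unit _ uy
      calc (x.num : ZMod p) * y.den = x.num * y.den * (x.den * (x.den : ZMod p)⁻¹) := by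
            rw [h2, mul_one]
        _ = (x.num : ZMod p) * (x.den : ZMod p)⁻¹ * (x.den * y.den) := by ring
        _ = (y.num : ZMod p) * (y.den : ZMod p)⁻¹ * (x.den * y.den) := h1
        _ = y.num * x.den * (y.den * (y.den : ZMod p)⁻¹) := by ring
        _ = y.num * x.den := by rw [h3, mul_one]
    · intro h
      have h2 := ZMod.mul_inv_of_unit _ ux
      have h3 := ZMod.mul_inv_of_unit _ uy
      calc (x.num : ZMod p) * (x.den : ZMod p)⁻¹ =
            (x.num * y.den) * (x.den : ZMod p)⁻¹ * (y.den : ZMod p)⁻¹ := by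
            rw [show (x.num : ZMod p) * y.den * (x.den : ZMod p)⁻¹ * (y.den : ZMod p)⁻¹ =
              x.num * (x.den : ZMod p)⁻¹ * (y.den * (y.den : ZMod p)⁻¹) by ring, h3, mul_one]
        _ = (y.num * x.den) * (x.den : ZMod p)⁻¹ * (y.den : ZMod p)⁻¹ := by rw [h]
        _ = (y.num : ZMod p) * (y.den : ZMod p)⁻¹ * (x.den * (x.den : ZMod p)⁻¹) := by ring
        _ = (y.num : ZMod p) * (y.den : ZMod p)⁻¹ := by rw [h2, mul_one]
  have e2 : (x.num : ZMod p) * y.den = y.num * x.den ↔
      (p : ℤ) ∣ x.num * y.den - y.num * x.den := by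
    rw [← ZMod.intCast_zmod_eq_zero_iff_dvd]
    push_cast
    rw [sub_eq_zero]
  rw [e1, e2]
  have xd : (x.den : ℚ) ≠ 0 := by exact_mod_cast x.den_nz
  have yd : (y.den : ℚ) ≠ 0 := by exact_mod_cast y.den_nz
  have e3 : x - y = (x.num * y.den - y.num * x.den) / (x.den * y.den) := by
    rw [eq_div_iff (mul_ne_zero xd yd)]
    have h1 : x * x.den = x.num := Rat.mul_den_eq_num x
    have h2 : y * y.den = y.num := Rat.mul_den_eq_num y
    rw [← h1, ← h2]; ring
  constructor
  · rintro ⟨c, hc⟩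
    have hc' : (x.num : ℚ) * y.den - y.num * x.den = p * c := by exact_mod_cast hc
    have e4 : (x - y) / p = (c : ℤ) / ((x.den * y.den : ℕ) : ℤ) := by
      rw [e3, hc']; push_cast; field_simp
    rw [e4]
    have h := Rat.den_dvd c ((x.den * y.den : ℕ) : ℤ)
    have h' : ((c : ℚ) / (((x.den * y.den : ℕ) : ℤ) : ℚ)).den ∣ x.den * y.den := by
      exact_mod_cast h
    exact Nat.Coprime.coprime_dvd_left h' (Nat.Coprime.mul_left hx hy)
  · intro h
    set m := (x - y) / p with hm
    have h1 : x - y = p * m := by rw [hm]; field_simp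
    have md : (m.den : ℚ) ≠ 0 := by exact_mod_cast m.den_nz
    have h2 : ((x.num * y.den - y.num * x.den : ℤ) : ℚ) * m.den =
        p * (m.num * (x.den * y.den)) := by
      have h3 : m * m.den = m.num := Rat.mul_den_eq_num m
      have h4 : (x.num : ℚ) * y.den - y.num * x.den = (x - y) * (x.den * y.den) := by
        rw [e3]; field_simp
      push_cast
      rw [h4, h1, ← h3]; ring
    have h5 : (x.num * y.den - y.num * x.den : ℤ) * m.den =
        p * (m.num * (x.den * y.den)) := by exact_mod_cast h2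
    have h6 : (p : ℤ) ∣ (x.num * y.den - y.num * x.den : ℤ) * m.den := ⟨_, h5⟩
    have h7 : IsCoprime (p : ℤ) (m.den : ℤ) := Nat.isCoprime_iff_coprime.2 h.symm
    exact h7.dvd_of_dvd_mul_right h6

variable {a b : ZMod p → ℚ}

theorem neZ (hp : 2 ≤ p) : NeZero p := ⟨by omega⟩

theorem unit_ne (hp : 2 ≤ p) (h : x.num.natAbs.Coprime p) : x ≠ 0 := by
  rintro rfl
  have : Nat.Coprime 0 p := h
  rw [Nat.coprime_zero_left] at this
  omega

theorem dig_val (hp : 2 ≤ p) (c : ZMod p) : dig p (c.val : ℚ) = c := by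
  have := neZ hp
  unfold dig
  rw [Rat.num_natCast, Rat.den_natCast]
  simp

theorem stp_I (hp : 2 ≤ p) (hF : IsSys p a b) (hx : x.den.Coprime p) :
    (stp p a b x).den.Coprime p := by
  have h1 : (a (dig p x) + b (dig p x) * x).den.Coprime p :=
    I_add (hF _).1 (I_mul (hF _).2.1 hx)
  exact (dig_eq_iff hp h1 (I_nat _)).1 (dig_val hp _).symm

theorem it_I (hp : 2 ≤ p) (hF : IsSys p a b) (hx : x.den.Coprime p) (k : ℕ) :
    ((stp p a b)^[k] x).den.Coprime p := by
  induction k with
  | zero => exact hx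
  | succ k ih => rw [Function.iterate_succ_apply']; exact stp_I hp hF ih

/-- same digit -/
theorem stp_sub (hp : 2 ≤ p) (hF : IsSys p a b) (hx : x.den.Coprime p) (hy : y.den.Coprime p)
    (h : dig p x = dig p y) : stp p a b x - stp p a b y = b (dig p x) * (x - y) / p := by
  have h1 := (dig_eq_iff hp hx hy).1 h
  have e : dig p (a (dig p x) + b (dig p x) * x) = dig p (a (dig p y) + b (dig p y) * y) := by
    rw [dig_eq_iff hp (I_add (hF _).1 (I_mul (hF _).2.1 hx))
      (I_add (hF _).1 (I_mul (hF _).2.1 hy)), h]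
    have : (a (dig p y) + b (dig p y) * x - (a (dig p y) + b (dig p y) * y)) / p =
        b (dig p y) * ((x - y) / p) := by ring
    rw [this]
    exact I_mul (hF _).2.1 h1
  unfold stp
  rw [e, h]
  ring

/-- the digits determine the number modulo powers of `p` -/
theorem dig_pow (hp : 2 ≤ p) (hF : IsSys p a b) : ∀ (k : ℕ) {x y : ℚ}, x.den.Coprime p →
    y.den.Coprime p →
    (∀ i < k, dig p ((stp p a b)^[i] x) = dig p ((stp p a b)^[i] y)) →
    ((x - y) / p ^ k).den.Coprime p := by
  intro k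
  induction k with
  | zero => intro x y hx hy _; rw [pow_zero, div_one]; exact I_sub hx hy
  | succ k ih =>
    intro x y hx hy h
    have p0 : (p : ℚ) ≠ 0 := by
      have : p ≠ 0 := by omega
      exact_mod_cast this
    have h0 := h 0 (Nat.succ_pos k)
    simp only [Function.iterate_zero, id] at h0
    have h1 := ih (stp_I hp hF hx) (stp_I hp hF hy) (fun i hi => by
      have := h (i + 1) (by omega)
      rwa [Function.iterate_succ_apply, Function.iterate_succ_apply] at this)
    rw [stp_sub hp hF hx hy h0] at h1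
    have b0 := unit_ne hp (hF (dig p x)).2.2
    have e : (x - y) / p ^ (k + 1) = (b (dig p x))⁻¹ * (b (dig p x) * (x - y) / p / p ^ k) := by
      field_simp
      ring
    rw [e]
    exact I_mul (I_inv b0 (hF _).2.2) h1

theorem dvd_of_I (hp : 2 ≤ p) {z : ℤ} {k : ℕ} (h : ((z : ℚ) / p ^ k).den.Coprime p) :
    ((p : ℤ) ^ k) ∣ z := by
  have p0 : (p : ℚ) ≠ 0 := by
    have : p ≠ 0 := by omega
    exact_mod_cast this
  set m := (z : ℚ) / p ^ k with hm
  have h1 : (z : ℚ) = p ^ k * m := by rw [hm]; field_simp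
  have h2 : (z : ℚ) * m.den = p ^ k * m.num := by
    rw [h1, ← Rat.mul_den_eq_num m]; ring
  have h3 : z * m.den = (p : ℤ) ^ k * m.num := by exact_mod_cast h2
  have h4 : ((p : ℤ) ^ k) ∣ z * m.den := ⟨_, h3⟩
  have h7 : IsCoprime ((p : ℤ) ^ k) (m.den : ℤ) :=
    IsCoprime.pow_left (Nat.isCoprime_iff_coprime.2 h.symm)
  exact h7.dvd_of_dvd_mul_right h4

theorem eq_of_dig (hp : 2 ≤ p) (hF : IsSys p a b) (hx : x.den.Coprime p)
    (hy : y.den.Coprime p)
    (h : ∀ i, dig p ((stp p a b)^[i] x) = dig p ((stp p a b)^[i] y)) : x = y := by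
  by_contra hne
  have hne' : x - y ≠ 0 := sub_ne_zero.2 hne
  have key : ∀ k : ℕ, ((p : ℤ) ^ k) ∣ (x - y).num := by
    intro k
    have h1 := dig_pow hp hF k hx hy (fun i _ => h i)
    refine dvd_of_I hp ?_
    have e : ((x - y).num : ℚ) / p ^ k = ((x - y).den : ℚ) * ((x - y) / p ^ k) := by
      rw [← Rat.mul_den_eq_num (x - y)]; ring
    rw [e]
    exact I_mul (I_nat _) h1
  have hn : (x - y).num ≠ 0 := Rat.num_ne_zero.2 hne'
  obtain ⟨k, hk⟩ : ∃ k : ℕ, (x - y).num.natAbs < p ^ k :=
    ⟨_, (Nat.lt_pow_self (by omega))⟩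
  have h2 : p ^ k ∣ (x - y).num.natAbs := by
    have := Int.natAbs_dvd_natAbs.2 (key k)
    rwa [Int.natAbs_pow, Int.natAbs_natCast] at this
  exact absurd (Nat.le_of_dvd (Int.natAbs_pos.2 hn) h2) (by omega)

/-- ultimately periodic digits: the orbit is ultimately periodic -/
theorem cyc_of (hp : 2 ≤ p) (hF : IsSys p a b) (hU : UltPer p a b) (hx : x.den.Coprime p) :
    ∃ N P : ℕ, 0 < P ∧ (stp p a b)^[P] ((stp p a b)^[N] x) = (stp p a b)^[N] x := by
  obtain ⟨N, P, hP, h⟩ := hU x hx
  refine ⟨N, P, hP, ?_⟩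
  refine eq_of_dig hp hF (it_I hp hF (it_I hp hF hx N) P) (it_I hp hF hx N) fun i => ?_
  have h1 := h (N + i) (by omega)
  rw [← Function.iterate_add_apply, ← Function.iterate_add_apply, ← Function.iterate_add_apply]
  have e1 : i + P + N = N + i + P := by omega
  have e2 : i + N = N + i := by omega
  rw [e1, e2]
  exact h1

end Pool.Agent.Helper48.UP
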