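import Pool.Agent.Helper48.UP.A

/-!
Linear digit systems: absolute values along a cycle.
-/

set_option autoImplicit false
noncomputable section
namespace Pool.Agent.Helper48.UP

variable {p : ℕ} {a b : ZMod p → ℚ}

/-! ### powers -/

/-- lower bound for `x ^ (2 P) - 1` at a prime -/
theorem lte_nat {v : ℕ} (hv : v.Prime) {U W : ℕ} (hU : ¬ v ∣ U) (hW : ¬ v ∣ W) (hne : U ≠ W) :
    ∃ e : ℕ, ∀ P f : ℕ, 0 < P → ¬ v ^ (f + 1) ∣ P →
      ¬ ((v : ℤ) ^ (e + f + 1)) ∣ ((U : ℤ) ^ 2) ^ P - ((W : ℤ) ^ 2) ^ P := by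
  have hvi : Prime (v : ℤ) := Nat.prime_iff_prime_int.1 hv
  -- exponent `d` that makes the difference divisible by `v` (by 4 for `v = 2`)
  obtain ⟨d, d0, hd⟩ : ∃ d : ℕ, 0 < d ∧ ((v : ℤ) ∣ ((U : ℤ) ^ 2) ^ d - ((W : ℤ) ^ 2) ^ d ∧
      (v = 2 → (4 : ℤ) ∣ ((U : ℤ) ^ 2) ^ d - ((W : ℤ) ^ 2) ^ d)) := by
    by_cases h : v = 2
    · subst h
      have h4 : (4 : ℤ) ∣ ((U : ℤ) ^ 2) ^ 1 - ((W : ℤ) ^ 2) ^ 1 := by
        obtain ⟨m, hm⟩ : ∃ m, U = 2 * m + 1 := ⟨U / 2, by omega⟩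
        obtain ⟨n, hn⟩ : ∃ n, W = 2 * n + 1 := ⟨W / 2, by omega⟩
        refine ⟨(m : ℤ) ^ 2 + m - n ^ 2 - n, ?_⟩
        rw [hm, hn]
        push_cast
        ring
      exact ⟨1, one_pos, (by norm_num : (2 : ℤ) ∣ 4).trans h4, fun _ => h4⟩
    · refine ⟨v - 1, Nat.sub_pos_of_lt hv.one_lt, ?_, fun h' => absurd h' h⟩
      have key : ∀ Z : ℕ, ¬ v ∣ Z → ((Z : ℤ) ^ 2) ^ (v - 1) ≡ 1 [ZMOD v] := by
        intro Z hZ
        have h1 : IsCoprime ((Z : ℤ) ^ 2) v :=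
          IsCoprime.pow_left (Nat.isCoprime_iff_coprime.2
            ((Nat.Prime.coprime_iff_not_dvd hv).2 hZ).symm)
        exact Int.ModEq.pow_card_sub_one_eq_one hv h1
      exact (Int.modEq_iff_dvd.1 ((key W hW).trans (key U hU).symm))
  set X : ℤ := ((U : ℤ) ^ 2) ^ d with hX
  set Y : ℤ := ((W : ℤ) ^ 2) ^ d with hY
  have hXn : ¬ (v : ℤ) ∣ X := by
    intro h
    have := hvi.dvd_of_dvd_pow (hvi.dvd_of_dvd_pow h)
    exact hU (by exact_mod_cast this)
  have hXY : X - Y ≠ 0 := by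
    intro h
    have h1 : ((U : ℤ) ^ 2) ^ d = ((W : ℤ) ^ 2) ^ d := sub_eq_zero.1 h
    rw [← pow_mul, ← pow_mul] at h1
    have h2 : U ^ (2 * d) = W ^ (2 * d) := by exact_mod_cast h1
    exact hne (Nat.pow_left_injective (by omega) h2)
  have hfin : FiniteMultiplicity (v : ℤ) (X - Y) :=
    Int.finiteMultiplicity_iff.2 ⟨by simpa using hv.one_lt.ne', hXY⟩
  refine ⟨multiplicity (v : ℤ) (X - Y), fun P f hP hf hcon => ?_⟩
  have h1 : ((U : ℤ) ^ 2) ^ P - ((W : ℤ) ^ 2) ^ P ∣ X ^ P - Y ^ P := by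
    have := sub_dvd_pow_sub_pow (((U : ℤ) ^ 2) ^ P) (((W : ℤ) ^ 2) ^ P) d
    have e : ∀ z : ℤ, (z ^ d) ^ P = (z ^ P) ^ d := fun z => by
      rw [← pow_mul, ← pow_mul, mul_comm]
    rw [hX, hY, e, e]
    exact this
  have h2 := hcon.trans h1
  have h3 : emultiplicity (v : ℤ) (X ^ P - Y ^ P) =
      emultiplicity (v : ℤ) (X - Y) + emultiplicity (v : ℤ) (P : ℤ) := by
    by_cases h : v = 2
    · subst h
      exact Int.two_pow_sub_pow' P (by exact_mod_cast hd.2 rfl) (by exact_mod_cast hXn)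
    · have := Int.emultiplicity_pow_sub_pow hv (hv.odd_of_ne_two h) hd.1 hXn P
      rw [this, Int.natCast_emultiplicity]
  have h4 : ((multiplicity (v : ℤ) (X - Y) + f + 1 : ℕ) : ℕ∞) ≤
      emultiplicity (v : ℤ) (X ^ P - Y ^ P) := le_emultiplicity_of_pow_dvd h2
  have h5 : emultiplicity (v : ℤ) (P : ℤ) < ((f + 1 : ℕ) : ℕ∞) := by
    rw [emultiplicity_lt_iff_not_dvd]
    exact_mod_cast hf
  rw [h3, hfin.emultiplicity_eq_multiplicity] at h4
  generalize emultiplicity (v : ℤ) (P : ℤ) = em at h4 h5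
  lift em to ℕ using (ne_top_of_lt h5)
  have h6 : multiplicity (v : ℤ) (X - Y) + f + 1 ≤ multiplicity (v : ℤ) (X - Y) + em := by
    exact_mod_cast h4
  have h7 : em < f + 1 := by exact_mod_cast h5
  omega

theorem norm_parts {v : ℕ} [hv : Fact v.Prime] {x : ℚ} (hx : padicNorm v x = 1) :
    ∃ U W : ℕ, ¬ v ∣ U ∧ ¬ v ∣ W ∧ W ≠ 0 ∧ x ^ 2 = ((U : ℚ) / W) ^ 2 := by
  have d0 : (x.den : ℚ) ≠ 0 := by exact_mod_cast x.den_nz
  have e : padicNorm v x * padicNorm v x.den = padicNorm v x.num := by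
    rw [← padicNorm.mul, Rat.mul_den_eq_num]
  rw [hx, one_mul] at e
  have hd : ¬ v ∣ x.den := by
    intro h
    have h1 : padicNorm v (x.den : ℚ) < 1 := (padicNorm.nat_lt_one_iff _).2 h
    rw [e] at h1
    have h2 : (v : ℤ) ∣ x.num := (padicNorm.int_lt_one_iff _).1 h1
    have h3 : v ∣ x.num.natAbs := Int.natCast_dvd.1 h2
    exact hv.out.one_lt.ne' (Nat.eq_one_of_dvd_coprimes x.reduced h3 h)
  refine ⟨x.num.natAbs, x.den, fun h => ?_, hd, x.den_nz, ?_⟩
  · have h1 : padicNorm v (x.den : ℚ) = 1 := (padicNorm.nat_eq_one_iff _).2 hd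
    have h2 : padicNorm v (x.num : ℚ) < 1 := (padicNorm.int_lt_one_iff _).2 (Int.natCast_dvd.2 h)
    rw [← e, h1] at h2
    exact lt_irrefl _ h2
  · have e : ((x.num.natAbs : ℕ) : ℚ) = |(x.num : ℚ)| := by
      rw [Nat.cast_natAbs, Int.cast_abs]
    rw [div_pow, e, sq_abs, ← Rat.mul_den_eq_num]
    field_simp

theorem norm_nat_val {v : ℕ} [hv : Fact v.Prime] {P : ℕ} (hP : 0 < P) :
    padicNorm v (P : ℚ) = (v : ℚ) ^ (-(padicValNat v P : ℤ)) := by
  rw [padicNorm.eq_zpow_of_nonzero (by exact_mod_cast hP.ne'), padicValRat.of_nat]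

theorem lte_norm {v : ℕ} [hv : Fact v.Prime] {x : ℚ} (hx : padicNorm v x = 1)
    (h1 : x ^ 2 ≠ 1) : ∃ c : ℚ, 0 < c ∧ c ≤ 1 ∧ ∀ P : ℕ, 0 < P →
      c * padicNorm v P ≤ padicNorm v (1 - x ^ (2 * P)) := by
  obtain ⟨U, W, hU, hW, hW0, hx2⟩ := norm_parts hx
  have d0 : (W : ℚ) ≠ 0 := by exact_mod_cast hW0
  have v0 : (0 : ℚ) < v := by exact_mod_cast hv.out.pos
  have v1 : (1 : ℚ) ≤ v := by exact_mod_cast hv.out.one_lt.le
  have hne : U ≠ W := by
    intro h
    apply h1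
    rw [hx2, h, div_self d0, one_pow]
  obtain ⟨e, he⟩ := lte_nat hv.out hU hW hne
  refine ⟨(v : ℚ) ^ (-(e + 1 : ℤ)), by positivity, ?_, fun P hP => ?_⟩
  · rw [zpow_neg]
    exact inv_le_one_of_one_le₀ (one_le_zpow₀ v1 (by positivity))
  have hf : ¬ v ^ (padicValNat v P + 1) ∣ P := pow_succ_padicValNat_not_dvd hP.ne'
  have h2 := he P (padicValNat v P) hP hf
  have h3 : ¬ (((v ^ (e + padicValNat v P + 1) : ℕ) : ℤ) ∣
      ((U : ℤ) ^ 2) ^ P - ((W : ℤ) ^ 2) ^ P) := by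
    intro h
    apply h2
    push_cast at h
    exact h
  rw [padicNorm.dvd_iff_norm_le, not_le] at h3
  have h4 : (1 - x ^ (2 * P)) * ((W : ℚ) ^ 2) ^ P =
      -((((U : ℤ) ^ 2) ^ P - ((W : ℤ) ^ 2) ^ P : ℤ) : ℚ) := by
    rw [pow_mul, hx2]
    push_cast
    rw [div_pow, div_pow, sub_mul, div_mul_cancel₀ _ (by positivity)]
    ring
  have h5 : padicNorm v (((W : ℚ) ^ 2) ^ P) = 1 := by
    have : padicNorm v (((W ^ 2) ^ P : ℕ) : ℚ) = 1 := by
      rw [padicNorm.nat_eq_one_iff]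
      intro h
      exact hW (hv.out.dvd_of_dvd_pow (hv.out.dvd_of_dvd_pow h))
    exact_mod_cast this
  have h6 : padicNorm v (1 - x ^ (2 * P)) =
      padicNorm v (((((U : ℤ) ^ 2) ^ P - ((W : ℤ) ^ 2) ^ P : ℤ)) : ℚ) := by
    rw [← padicNorm.neg (((((U : ℤ) ^ 2) ^ P - ((W : ℤ) ^ 2) ^ P : ℤ)) : ℚ), ← h4,
      padicNorm.mul, h5, mul_one]
  rw [h6]
  refine le_of_eq_of_le ?_ h3.le
  rw [norm_nat_val hP, ← zpow_add₀ v0.ne']
  congr 1
  push_cast
  ring

theorem norm_pow_one {v : ℕ} [hv : Fact v.Prime] {x : ℚ} (hx : padicNorm v x = 1) (n : ℕ) :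
    padicNorm v (x ^ n) = 1 := by
  induction n with
  | zero => rw [pow_zero]; exact padicNorm.one
  | succ n ih => rw [pow_succ, padicNorm.mul, ih, hx, one_mul]

/-! ### the recursion on a cycle -/

/-- a periodic solution of `y (i + 1) = c i + x y i`, up to signs -/
structure Rcs (y c δ : ℕ → ℚ) (x : ℚ) (P : ℕ) : Prop where
  rc : ∀ i, y (i + 1) = c i + δ i * (x * y i)
  dl : ∀ i, δ i = 1 ∨ δ i = -1
  pr : ∀ i, y (i + P) = y i
  p0 : 0 < P

section
variable {y c δ : ℕ → ℚ} {x : ℚ} {P : ℕ}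

theorem Rcs.mod (h : Rcs y c δ x P) (i : ℕ) : y (i % P) = y i := by
  conv_rhs => rw [← Nat.mod_add_div i P]
  generalize i / P = n
  induction n with
  | zero => simp
  | succ n ih =>
    have e : i % P + P * (n + 1) = i % P + P * n + P := by ring
    rw [e, h.pr, ← ih]

theorem Rcs.mx (h : Rcs y c δ x P) (g : ℚ → ℚ) : ∃ i, ∀ j, g (y j) ≤ g (y i) := by
  obtain ⟨i, -, hi⟩ := Finset.exists_max_image (Finset.range P) (fun i => g (y i))
    ⟨0, Finset.mem_range.2 h.p0⟩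
  refine ⟨i, fun j => ?_⟩
  rw [← h.mod j]
  exact hi _ (Finset.mem_range.2 (Nat.mod_lt _ h.p0))

/-- a predecessor -/
theorem Rcs.pre (h : Rcs y c δ x P) (i : ℕ) : ∃ k, y i = c k + δ k * (x * y k) := by
  refine ⟨i + P - 1, ?_⟩
  have := h.rc (i + P - 1)
  have hp := h.p0
  have e : i + P - 1 + 1 = i + P := by omega
  rw [e, h.pr] at this
  exact this

theorem Rcs.bd_ne (h : Rcs y c δ x P) {v : ℕ} [hv : Fact v.Prime] {A : ℚ}
    (hA : ∀ i, padicNorm v (c i) ≤ A) (hx0 : x ≠ 0) (hx : padicNorm v x ≠ 1) (j : ℕ) :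
    padicNorm v (y j) ≤ A := by
  obtain ⟨i, hi⟩ := h.mx (padicNorm v)
  refine (hi j).trans ?_
  by_contra hcon
  have hcon := not_lt.1 (not_lt.2 (not_le.1 hcon).le)
  have hA' : A < padicNorm v (y i) := lt_of_not_ge (by assumption)
  have nd : ∀ k, padicNorm v (δ k) = 1 := by
    intro k
    rcases h.dl k with h1 | h1
    · rw [h1]; exact padicNorm.one
    · rw [h1, padicNorm.neg]; exact padicNorm.one
  have A0 : 0 ≤ A := (padicNorm.nonneg _).trans (hA 0)
  have np : 0 < padicNorm v x := lt_of_le_of_ne (padicNorm.nonneg _)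
    (Ne.symm (padicNorm.nonzero hx0))
  rcases lt_or_gt_of_ne hx with hx1 | hx1
  · -- predecessor
    obtain ⟨k, hk⟩ := h.pre i
    have h1 : padicNorm v (δ k * (x * y k)) = padicNorm v x * padicNorm v (y k) := by
      rw [padicNorm.mul, padicNorm.mul, nd, one_mul]
    have h2 : padicNorm v (y i) ≤ max (padicNorm v (c k)) (padicNorm v (δ k * (x * y k))) := by
      rw [hk]; exact padicNorm.nonarchimedean
    have h3 : padicNorm v (y i) ≤ padicNorm v x * padicNorm v (y k) := by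
      rcases le_max_iff.1 h2 with h3 | h3
      · exact absurd (h3.trans (hA k)) (not_le.2 hA')
      · rwa [h1] at h3
    have h4 := mul_le_mul_of_nonneg_left (hi k) np.le
    have h5 : padicNorm v x * padicNorm v (y i) < 1 * padicNorm v (y i) :=
      mul_lt_mul_of_pos_right hx1 (lt_of_le_of_lt A0 hA')
    linarith
  · -- successor
    have h1 : padicNorm v (δ i * (x * y i)) = padicNorm v x * padicNorm v (y i) := by
      rw [padicNorm.mul, padicNorm.mul, nd, one_mul]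
    have h5 : 1 * padicNorm v (y i) < padicNorm v x * padicNorm v (y i) :=
      mul_lt_mul_of_pos_right hx1 (lt_of_le_of_lt A0 hA')
    have h2 : padicNorm v (c i) ≠ padicNorm v (δ i * (x * y i)) := by
      have := hA i
      rw [h1]
      intro h
      linarith
    have h3 : padicNorm v (y (i + 1)) = max (padicNorm v (c i))
        (padicNorm v (δ i * (x * y i))) := by
      rw [h.rc i]; exact padicNorm.add_eq_max_of_ne h2
    have h4 := hi (i + 1)
    rw [h3, h1] at h4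
    have := le_max_right (padicNorm v (c i)) (padicNorm v x * padicNorm v (y i))
    linarith

theorem Rcs.iter (h : Rcs y c δ x P) {v : ℕ} [hv : Fact v.Prime] {A : ℚ}
    (hA : ∀ i, padicNorm v (c i) ≤ A) (hx : padicNorm v x = 1) (j k : ℕ) :
    ∃ ε e : ℚ, (ε = 1 ∨ ε = -1) ∧ padicNorm v e ≤ A ∧ y (j + k) = e + ε * x ^ k * y j := by
  induction k with
  | zero =>
    refine ⟨1, 0, Or.inl rfl, ?_, by simp⟩
    rw [padicNorm.zero]; exact (padicNorm.nonneg _).trans (hA 0)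
  | succ k ih =>
    obtain ⟨ε, e, h1, h2, h3⟩ := ih
    refine ⟨δ (j + k) * ε, c (j + k) + δ (j + k) * (x * e), ?_, ?_, ?_⟩
    · rcases h1 with h1 | h1 <;> rcases h.dl (j + k) with h4 | h4 <;> simp [h1, h4]
    · refine padicNorm.nonarchimedean.trans (max_le (hA _) ?_)
      have nd : padicNorm v (δ (j + k)) = 1 := by
        rcases h.dl (j + k) with h1 | h1
        · rw [h1]; exact padicNorm.one
        · rw [h1, padicNorm.neg]; exact padicNorm.one
      rw [padicNorm.mul, padicNorm.mul, nd, hx, one_mul, one_mul]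
      exact h2
    · have e1 : j + (k + 1) = j + k + 1 := by ring
      rw [e1, h.rc, h3]
      ring

theorem Rcs.bd_eq (h : Rcs y c δ x P) {v : ℕ} [hv : Fact v.Prime] {A c0 : ℚ}
    (hA : ∀ i, padicNorm v (c i) ≤ A) (hx : padicNorm v x = 1)
    (hc : c0 * padicNorm v P ≤ padicNorm v (1 - x ^ (2 * P))) (j : ℕ) :
    c0 * padicNorm v P * padicNorm v (y j) ≤ A := by
  obtain ⟨ε, e, h1, h2, h3⟩ := h.iter hA hx j P
  rw [h.pr] at h3
  have h4 : y j * (1 - ε * x ^ P) = e := by linear_combination h3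
  have h5 : padicNorm v (1 + ε * x ^ P) ≤ 1 := by
    refine padicNorm.nonarchimedean.trans (max_le (le_of_eq padicNorm.one) ?_)
    have np : padicNorm v (x ^ P) = 1 := norm_pow_one hx P
    rcases h1 with h1 | h1
    · rw [h1, one_mul, np]
    · rw [h1, neg_one_mul, padicNorm.neg, np]
  have h6 : (1 - x ^ (2 * P)) = (1 - ε * x ^ P) * (1 + ε * x ^ P) := by
    have : ε ^ 2 = 1 := by rcases h1 with h1 | h1 <;> rw [h1] <;> norm_num
    have e2 : (1 - ε * x ^ P) * (1 + ε * x ^ P) = 1 - ε ^ 2 * (x ^ P) ^ 2 := by ring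
    rw [e2, this, one_mul, ← pow_mul, mul_comm P 2]
  have h7 : padicNorm v (1 - x ^ (2 * P)) ≤ padicNorm v (1 - ε * x ^ P) := by
    rw [h6, padicNorm.mul]
    have := mul_le_mul_of_nonneg_left h5 (padicNorm.nonneg (1 - ε * x ^ P) (p := v))
    rwa [mul_one] at this
  calc c0 * padicNorm v P * padicNorm v (y j) ≤
        padicNorm v (1 - ε * x ^ P) * padicNorm v (y j) :=
        mul_le_mul_of_nonneg_right (hc.trans h7) (padicNorm.nonneg _)
    _ = padicNorm v e := by rw [← h4, padicNorm.mul, mul_comm]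
    _ ≤ A := h2

/-- the real absolute value -/
theorem Rcs.bd_re (h : Rcs y c δ x P) {B : ℚ} (hB : ∀ i, |c i| ≤ B) (hx : |x| ≠ 1) (j : ℕ) :
    |y j| ≤ B / |(|x| - 1)| := by
  obtain ⟨i, hi⟩ := h.mx (fun z => |z|)
  refine (hi j).trans ?_
  have h0 : 0 < |(|x| - 1)| := abs_pos.2 (sub_ne_zero.2 hx)
  rw [le_div_iff₀ h0]
  have nd : ∀ k, |δ k| = 1 := by
    intro k
    rcases h.dl k with h1 | h1
    · rw [h1]; exact abs_one
    · rw [h1, abs_neg]; exact abs_one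
  rcases lt_or_gt_of_ne hx with hx1 | hx1
  · obtain ⟨k, hk⟩ := h.pre i
    have h1 : |y i| ≤ |c k| + |δ k * (x * y k)| := by rw [hk]; exact abs_add_le _ _
    rw [abs_mul, abs_mul, nd, one_mul] at h1
    have h2 : |x| * |y k| ≤ |x| * |y i| := mul_le_mul_of_nonneg_left (hi k) (abs_nonneg x)
    rw [abs_of_neg (sub_neg.2 hx1)]
    have h5 := hB k
    generalize |y i| = Y at *
    generalize |x| = X at *
    linarith
  · have h1 : δ i * (x * y i) = y (i + 1) - c i := by rw [h.rc i]; ring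
    have h2 : |x| * |y i| ≤ |y (i + 1)| + |c i| := by
      have := abs_sub (y (i + 1)) (c i)
      rw [← h1, abs_mul, abs_mul, nd, one_mul] at this
      exact this
    have h3 : |y (i + 1)| ≤ |y i| := hi (i + 1)
    rw [abs_of_pos (sub_pos.2 hx1)]
    have h5 := hB i
    generalize |y i| = Y at *
    generalize |x| = X at *
    linarith

end

end Pool.Agent.Helper48.UP
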