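import Pool.Agent.Helper48.UP.B

/-!
Linear digit systems: systems that are not ultimately periodic.
-/

set_option autoImplicit false
noncomputable section
namespace Pool.Agent.Helper48.UP

open Finset

variable {p : ℕ} {a b : ZMod p → ℚ}

/-! ### counting -/

theorem count {k P M C : ℕ} (hp : 2 ≤ p) (hM : M ≠ 0) (R : Finset (ZMod p)) {y : ℕ → ℚ} {z : ℕ → ℤ}
    (hz : ∀ i, (M : ℚ) * y i = z i) (hb : ∀ i, |y i| ≤ C)
    (hinj : ∀ i < P, ∀ j < P, y i = y j → i = j) {w : ℕ → ℕ → ZMod p} (hw : ∀ i t, w i t ∈ R)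
    (hc : ∀ i j, (∀ t < k, w i t = w j t) → ((y i - y j) / p ^ k).den.Coprime p) :
    P ≤ R.card ^ k * (2 * C * M / p ^ k + 1) := by
  classical
  have pk : 0 < p ^ k := by positivity
  have zb : ∀ i, |z i| ≤ C * M := by
    intro i
    have h1 : |(z i : ℚ)| ≤ C * M := by
      rw [← hz i, abs_mul, Nat.abs_cast, mul_comm]
      exact mul_le_mul_of_nonneg_right (hb i) (by positivity)
    exact_mod_cast h1
  set A : ℕ → ℕ := fun i => (z i + C * M).toNat with hA
  have eA : ∀ i, (A i : ℤ) = z i + C * M := by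
    intro i
    have := (abs_le.1 (zb i)).1
    rw [hA]
    simp only
    rw [Int.toNat_of_nonneg (by linarith)]
  have bA : ∀ i, A i ≤ 2 * C * M := by
    intro i
    have h1 := (abs_le.1 (zb i)).2
    have h2 : (A i : ℤ) ≤ ((2 * C * M : ℕ) : ℤ) := by
      rw [eA]; push_cast; linarith
    exact_mod_cast h2
  have key : (range P).card ≤ ((Fintype.piFinset fun _ : Fin k => R) ×ˢ
      range (2 * C * M / p ^ k + 1)).card := by
    refine Finset.card_le_card_of_injOn
      (fun i => ((fun t : Fin k => w i t), A i / p ^ k)) ?_ ?_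
    · intro i _
      simp only [coe_product, Set.mem_prod, mem_coe, Fintype.mem_piFinset, mem_range]
      exact ⟨fun t => hw i t, Nat.lt_succ_of_le (Nat.div_le_div_right (bA i))⟩
    · intro i hi j hj hij
      simp only [Prod.mk.injEq] at hij
      obtain ⟨h1, h2⟩ := hij
      have hi' : i < P := by simpa using hi
      have hj' : j < P := by simpa using hj
      refine hinj i hi' j hj' ?_
      have h3 := hc i j fun t ht => congrFun h1 ⟨t, ht⟩
      have h4 : ((p : ℤ) ^ k) ∣ z i - z j := by
        refine dvd_of_I hp ?_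
        have e : (((z i - z j : ℤ)) : ℚ) / p ^ k = (M : ℚ) * ((y i - y j) / p ^ k) := by
          push_cast
          rw [← hz i, ← hz j]; ring
        rw [e]
        exact I_mul (I_nat _) h3
      have h5 : A i % p ^ k = A j % p ^ k := by
        have : (A j : ℤ) ≡ A i [ZMOD ((p ^ k : ℕ) : ℤ)] := by
          rw [Int.modEq_iff_dvd, eA, eA]
          push_cast
          have e : z i + C * M - (z j + C * M) = z i - z j := by ring
          rw [e]
          exact h4
        exact ((Int.natCast_modEq_iff).1 this).symm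
      have h6 : A i = A j := by
        rw [← Nat.mod_add_div (A i) (p ^ k), ← Nat.mod_add_div (A j) (p ^ k), h5, h2]
      have h7 : z i = z j := by
        have : (A i : ℤ) = A j := by rw [h6]
        rw [eA, eA] at this
        linarith
      have hM' : (M : ℚ) ≠ 0 := by exact_mod_cast hM
      have : (M : ℚ) * y i = M * y j := by rw [hz, hz, h7]
      exact mul_left_cancel₀ hM' this
  rw [card_range, card_product, Fintype.card_piFinset, card_range] at key
  simpa using key

/-! ### denominators -/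

section
variable {v : ℕ} [hv : Fact v.Prime]

/-- the absolute value and the denominator -/
theorem den_norm (q : ℚ) : padicNorm v q ≤ q.den ∧
    (v : ℚ) ^ (q.den.factorization v) ≤ max 1 (padicNorm v q) := by
  have v0 : (0 : ℚ) < v := by exact_mod_cast hv.out.pos
  have e : padicNorm v q * padicNorm v (q.den : ℚ) = padicNorm v (q.num : ℚ) := by
    rw [← padicNorm.mul, Rat.mul_den_eq_num]
  have hd : padicNorm v (q.den : ℚ) = ((v : ℚ) ^ (q.den.factorization v))⁻¹ := by
    rw [norm_nat_val q.den_pos, zpow_neg, zpow_natCast,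
      Nat.factorization_def _ hv.out]
  have hle : v ^ (q.den.factorization v) ≤ q.den := Nat.ordProj_le v q.den_nz
  have hle' : (v : ℚ) ^ (q.den.factorization v) ≤ q.den := by exact_mod_cast hle
  have n1 : padicNorm v (q.num : ℚ) ≤ 1 := padicNorm.of_int _
  have pos : 0 < (v : ℚ) ^ (q.den.factorization v) := by positivity
  constructor
  · rw [hd] at e
    have h1 : padicNorm v q = padicNorm v (q.num : ℚ) * (v : ℚ) ^ (q.den.factorization v) := by
      rw [← e]; field_simp
    rw [h1]
    calc padicNorm v (q.num : ℚ) * (v : ℚ) ^ (q.den.factorization v) ≤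
          1 * (v : ℚ) ^ (q.den.factorization v) := mul_le_mul_of_nonneg_right n1 pos.le
      _ ≤ q.den := by rw [one_mul]; exact hle'
  · by_cases hvd : v ∣ q.den
    · have hn : ¬ v ∣ q.num.natAbs := fun h =>
        hv.out.one_lt.ne' (Nat.eq_one_of_dvd_coprimes q.reduced h hvd)
      have h1 : padicNorm v (q.num : ℚ) = 1 := by
        rw [padicNorm.int_eq_one_iff]
        intro h
        exact hn (Int.natCast_dvd.1 h)
      rw [h1, hd] at e
      have h2 : padicNorm v q = (v : ℚ) ^ (q.den.factorization v) := by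
        field_simp at e
        linarith
      rw [h2]
      exact le_max_right _ _
    · rw [Nat.factorization_eq_zero_of_not_dvd hvd, pow_zero]
      exact le_max_left _ _

theorem norm_p (hvp : ¬ v ∣ p) : padicNorm v (p : ℚ) = 1 := (padicNorm.nat_eq_one_iff _).2 hvp

theorem norm_cst (hvp : ¬ v ∣ p) {q A : ℚ} (hq : padicNorm v q ≤ A) (hA : 1 ≤ A) (s : ℕ) :
    padicNorm v ((q - s) / p) ≤ A := by
  rw [div_eq_mul_inv, padicNorm.mul]
  have h1 : padicNorm v ((p : ℚ)⁻¹) = 1 := by
    have h := norm_p (v := v) hvp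
    have p0 : (p : ℚ) ≠ 0 := by
      intro h0
      rw [h0, padicNorm.zero] at h
      exact zero_ne_one h
    have h2 : padicNorm v ((p : ℚ)⁻¹) * padicNorm v (p : ℚ) = 1 := by
      rw [← padicNorm.mul, inv_mul_cancel₀ p0, padicNorm.one]
    rwa [h, mul_one] at h2
  rw [h1, mul_one, sub_eq_add_neg]
  refine padicNorm.nonarchimedean.trans (max_le hq ?_)
  rw [padicNorm.neg]
  exact (padicNorm.of_nat _).trans hA

end

/-- a monotone prime -/
def Mono (p : ℕ) (b : ZMod p → ℚ) (l : ℕ) : Prop :=
  l.Prime ∧ ¬ l ∣ p ∧ ∀ r, 1 ≤ padicNorm l (b r)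

section
variable {l : ℕ} [hl : Fact l.Prime]

theorem stp_norm (hlp : ¬ l ∣ p) {A n : ℚ} (hA : 1 ≤ A) (ha : ∀ r, padicNorm l (a r) ≤ A)
    (hb : 1 ≤ padicNorm l (b (dig p n))) (hn : A < padicNorm l n) :
    padicNorm l (stp p a b n) = padicNorm l (b (dig p n)) * padicNorm l n := by
  have p1 : padicNorm l ((p : ℚ)⁻¹) = 1 := by
    have h := norm_p (v := l) hlp
    have p0 : (p : ℚ) ≠ 0 := by
      intro h0
      rw [h0, padicNorm.zero] at h
      exact zero_ne_one h
    have h2 : padicNorm l ((p : ℚ)⁻¹) * padicNorm l (p : ℚ) = 1 := by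
      rw [← padicNorm.mul, inv_mul_cancel₀ p0, padicNorm.one]
    rwa [h, mul_one] at h2
  set s : ℕ := (dig p (a (dig p n) + b (dig p n) * n)).val with hs
  have e : stp p a b n = (a (dig p n) - s) / p + b (dig p n) * n * (p : ℚ)⁻¹ := by
    unfold stp
    rw [← hs]
    ring
  have h1 := norm_cst hlp (ha (dig p n)) hA s
  have h2 : padicNorm l (b (dig p n) * n * (p : ℚ)⁻¹) =
      padicNorm l (b (dig p n)) * padicNorm l n := by
    rw [padicNorm.mul, padicNorm.mul, p1, mul_one]
  have h3 : A < padicNorm l (b (dig p n)) * padicNorm l n := by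
    have := mul_le_mul_of_nonneg_right hb (padicNorm.nonneg n (p := l))
    linarith
  rw [e, padicNorm.add_eq_max_of_ne (by rw [h2]; intro h; linarith), h2]
  exact max_eq_right (by linarith)

theorem it_norm (hlp : ¬ l ∣ p) {A n : ℚ} (hA : 1 ≤ A) (ha : ∀ r, padicNorm l (a r) ≤ A)
    (hb : ∀ r, 1 ≤ padicNorm l (b r)) (hn : A < padicNorm l n) (k : ℕ) :
    padicNorm l n ≤ padicNorm l ((stp p a b)^[k] n) := by
  induction k with
  | zero => exact le_rfl
  | succ k ih =>
    rw [Function.iterate_succ_apply', stp_norm hlp hA ha (hb _) (lt_of_lt_of_le hn ih)]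
    have := mul_le_mul_of_nonneg_right (hb (dig p ((stp p a b)^[k] n)))
      (padicNorm.nonneg ((stp p a b)^[k] n) (p := l))
    linarith

/-- along a cycle the multipliers have norm one -/
theorem cyc_norm (hlp : ¬ l ∣ p) {A n : ℚ} (hA : 1 ≤ A) (ha : ∀ r, padicNorm l (a r) ≤ A)
    (hb : ∀ r, 1 ≤ padicNorm l (b r)) (hn : A < padicNorm l n) {P : ℕ} (hP : 0 < P)
    (hc : (stp p a b)^[P] n = n) : padicNorm l (b (dig p n)) = 1 := by
  refine le_antisymm ?_ (hb _)
  have h1 : A < padicNorm l (stp p a b n) := by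
    have := it_norm hlp hA ha hb hn 1
    exact lt_of_lt_of_le hn this
  have h2 := it_norm hlp hA ha hb h1 (P - 1)
  have e : (stp p a b)^[P - 1] (stp p a b n) = n := by
    rw [← Function.iterate_succ_apply, Nat.succ_eq_add_one, Nat.sub_add_cancel hP, hc]
  rw [e, stp_norm hlp hA ha (hb _) hn] at h2
  have h3 : 0 < padicNorm l n := by linarith
  exact le_of_mul_le_mul_right (by linarith) h3

end

end Pool.Agent.Helper48.UP
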