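import Pool.Agent.Helper48.UP.C

/-!
Linear digit systems: the main theorem.
-/

set_option autoImplicit false
noncomputable section
namespace Pool.Agent.Helper48.UP

open Finset

variable {p : ℕ} {a b : ZMod p → ℚ}

/-- the constants of a cycle with multipliers `± β` at one prime -/
theorem kap (β : ℚ) (hβ : β ≠ 0) (hβp : |β / p| ≠ 1) (D : ℕ) (v : ℕ) (hv : v.Prime)
    (hvp : ¬ v ∣ p) :
    ∃ κ : ℕ, ∀ (y c δ : ℕ → ℚ) (P : ℕ), Rcs y c δ (β / p) P →
      (∀ i, padicNorm v (c i) ≤ D) → ∀ j, (v : ℚ) ^ ((y j).den.factorization v) ≤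
        (v : ℚ) ^ (κ + P.factorization v) := by
  have : Fact v.Prime := ⟨hv⟩
  have v1 : (1 : ℚ) ≤ v := by exact_mod_cast hv.one_lt.le
  have v0 : (0 : ℚ) < v := by linarith
  have p0 : (p : ℚ) ≠ 0 := by
    intro h0
    have h := norm_p (v := v) hvp
    rw [h0, padicNorm.zero] at h
    exact zero_ne_one h
  have x0 : β / (p : ℚ) ≠ 0 := div_ne_zero hβ p0
  have npos : ∀ {P : ℕ}, 0 < P → padicNorm v (P : ℚ) * (v : ℚ) ^ (P.factorization v) = 1 := by
    intro P hP
    rw [norm_nat_val hP, zpow_neg, zpow_natCast, Nat.factorization_def _ hv]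
    field_simp
  have pw : ∀ n : ℕ, (n : ℚ) ≤ (v : ℚ) ^ n := by
    intro n
    have h1 : n < 2 ^ n := Nat.lt_two_pow_self
    have h2 : 2 ^ n ≤ v ^ n := Nat.pow_le_pow_left hv.two_le n
    exact_mod_cast (h1.trans_le h2).le
  by_cases hx : padicNorm v (β / p) = 1
  · have h2 : (β / (p : ℚ)) ^ 2 ≠ 1 := by
      intro h
      apply hβp
      have h3 : |β / (p : ℚ)| ^ 2 = 1 := by rw [sq_abs]; exact h
      exact (pow_eq_one_iff_of_nonneg (abs_nonneg _) two_ne_zero).1 h3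
    obtain ⟨c0, c0p, c01, hc⟩ := lte_norm hx h2
    obtain ⟨κ, hκ⟩ := exists_nat_ge ((D : ℚ) / c0 + 1)
    refine ⟨κ, fun y c δ P h hA j => ?_⟩
    have h3 := h.bd_eq hA hx (hc P h.p0) j
    have h4 := npos h.p0
    have Pp : 0 < (v : ℚ) ^ (P.factorization v) := by positivity
    have h5 : padicNorm v (y j) ≤ D / c0 * (v : ℚ) ^ (P.factorization v) := by
      rw [div_mul_eq_mul_div, le_div_iff₀ c0p]
      calc padicNorm v (y j) * c0 = (padicNorm v (P : ℚ) * (v : ℚ) ^ (P.factorization v)) *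
            (padicNorm v (y j) * c0) := by rw [h4, one_mul]
        _ = (c0 * padicNorm v (P : ℚ) * padicNorm v (y j)) * (v : ℚ) ^ (P.factorization v) := by
            ring
        _ ≤ D * (v : ℚ) ^ (P.factorization v) := mul_le_mul_of_nonneg_right h3 Pp.le
    have h6 := (den_norm (v := v) (y j)).2
    refine h6.trans ?_
    rw [pow_add]
    have h7 : (D : ℚ) / c0 ≤ (v : ℚ) ^ κ := by
      have := pw κ
      linarith
    have h8 : (1 : ℚ) ≤ (v : ℚ) ^ (P.factorization v) := one_le_pow₀ v1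
    refine max_le ?_ ?_
    · have h9 : (1 : ℚ) ≤ (v : ℚ) ^ κ := one_le_pow₀ v1
      calc (1 : ℚ) = 1 * 1 := by ring
        _ ≤ (v : ℚ) ^ κ * (v : ℚ) ^ (P.factorization v) :=
          mul_le_mul h9 h8 zero_le_one (by positivity)
    · exact h5.trans (mul_le_mul_of_nonneg_right h7 Pp.le)
  · refine ⟨D, fun y c δ P h hA j => ?_⟩
    have h3 := h.bd_ne hA x0 hx j
    have h6 := (den_norm (v := v) (y j)).2
    refine h6.trans ?_
    rw [pow_add]
    have h8 : (1 : ℚ) ≤ (v : ℚ) ^ (P.factorization v) := one_le_pow₀ v1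
    have h9 : (1 : ℚ) ≤ (v : ℚ) ^ D := one_le_pow₀ v1
    refine max_le ?_ ?_
    · calc (1 : ℚ) = 1 * 1 := by ring
        _ ≤ (v : ℚ) ^ D * (v : ℚ) ^ (P.factorization v) :=
          mul_le_mul h9 h8 zero_le_one (by positivity)
    · calc padicNorm v (y j) ≤ (v : ℚ) ^ D * 1 := by rw [mul_one]; exact h3.trans (pw D)
        _ ≤ (v : ℚ) ^ D * (v : ℚ) ^ (P.factorization v) :=
          mul_le_mul_of_nonneg_left h8 (by positivity)

/-- denominators on a cycle -/
theorem den_cyc (β : ℚ) (hβ : β ≠ 0) (hβp : |β / p| ≠ 1) (D : ℕ) (S : ℕ) (hS : S ≠ 0) :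
    ∃ K : ℕ, K ≠ 0 ∧ ∀ (y c δ : ℕ → ℚ) (P : ℕ), Rcs y c δ (β / p) P →
      (∀ v : ℕ, v.Prime → ¬ v ∣ p → ∀ i, padicNorm v (c i) ≤ D) →
      (∀ v : ℕ, v.Prime → ¬ v ∣ S → ∀ j, ¬ v ∣ (y j).den) →
      (∀ j, (y j).den.Coprime p) → ∀ j, (y j).den ∣ K * P := by
  classical
  have ex : ∀ v : ℕ, ∃ κ : ℕ, v.Prime → ¬ v ∣ p → ∀ (y c δ : ℕ → ℚ) (P : ℕ),
      Rcs y c δ (β / p) P → (∀ i, padicNorm v (c i) ≤ D) → ∀ j,
        (v : ℚ) ^ ((y j).den.factorization v) ≤ (v : ℚ) ^ (κ + P.factorization v) := by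
    intro v
    by_cases h1 : v.Prime
    · by_cases h2 : v ∣ p
      · exact ⟨0, fun _ h => absurd h2 h⟩
      · obtain ⟨κ, hκ⟩ := kap β hβ hβp D v h1 h2
        exact ⟨κ, fun _ _ => hκ⟩
    · exact ⟨0, fun h => absurd h h1⟩
  choose κ hκ using ex
  refine ⟨∏ v ∈ S.primeFactors, v ^ κ v, ?_, ?_⟩
  · refine Finset.prod_ne_zero_iff.2 fun v hv => pow_ne_zero _ ?_
    exact (Nat.prime_of_mem_primeFactors hv).ne_zero
  · intro y c δ P h hA hS' hp j
    have K0 : (∏ v ∈ S.primeFactors, v ^ κ v) ≠ 0 := by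
      refine Finset.prod_ne_zero_iff.2 fun v hv => pow_ne_zero _ ?_
      exact (Nat.prime_of_mem_primeFactors hv).ne_zero
    rw [← Nat.factorization_prime_le_iff_dvd (y j).den_nz (mul_ne_zero K0 h.p0.ne')]
    intro v hv
    by_cases h1 : v ∣ (y j).den
    · have h2 : v ∣ S := by
        by_contra hcon
        exact hS' v hv hcon j h1
      have h3 : ¬ v ∣ p := fun h4 =>
        hv.one_lt.ne' (Nat.eq_one_of_dvd_coprimes (hp j) h1 h4)
      have h4 := hκ v hv h3 y c δ P h (hA v hv h3) j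
      have h5 : (y j).den.factorization v ≤ κ v + P.factorization v := by
        have v1 : (1 : ℚ) < v := by exact_mod_cast hv.one_lt
        exact (pow_le_pow_iff_right₀ v1).1 h4
      refine h5.trans ?_
      rw [Nat.factorization_mul K0 h.p0.ne', Finsupp.add_apply]
      refine Nat.add_le_add_right ?_ _
      have h6 : v ^ κ v ∣ ∏ v ∈ S.primeFactors, v ^ κ v :=
        Finset.dvd_prod_of_mem _ (Nat.mem_primeFactors.2 ⟨hv, h2, hS⟩)
      exact (hv.pow_dvd_iff_le_factorization K0).1 h6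
    · rw [Nat.factorization_eq_zero_of_not_dvd h1]
      exact Nat.zero_le _

section
variable {v : ℕ} [hv : Fact v.Prime]

theorem norm_le_one {q : ℚ} : padicNorm v q ≤ 1 ↔ ¬ v ∣ q.den := by
  have v1 : (1 : ℚ) < v := by exact_mod_cast hv.out.one_lt
  constructor
  · intro h hd
    have h1 := (den_norm (v := v) q).2
    rw [max_eq_left h] at h1
    have h2 : 0 < q.den.factorization v := hv.out.factorization_pos_of_dvd q.den_nz hd
    have h3 : (1 : ℚ) < (v : ℚ) ^ (q.den.factorization v) := one_lt_pow₀ v1 h2.ne'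
    linarith
  · intro h
    have e : padicNorm v q * padicNorm v (q.den : ℚ) = padicNorm v (q.num : ℚ) := by
      rw [← padicNorm.mul, Rat.mul_den_eq_num]
    rw [(padicNorm.nat_eq_one_iff _).2 h, mul_one] at e
    rw [e]
    exact padicNorm.of_int _

theorem norm_start {Q : ℕ} (m : ℕ) (h : v ∣ Q) (hQ : Q ≠ 0) :
    (2 : ℚ) ^ m ≤ padicNorm v (((Q : ℚ) ^ m)⁻¹) := by
  have Q0 : (Q : ℚ) ≠ 0 := by exact_mod_cast hQ
  have v2 : (2 : ℚ) ≤ v := by exact_mod_cast hv.out.two_le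
  have h1 : padicNorm v (Q : ℚ) ≤ 1 / 2 := by
    have h2 : (((v ^ 1 : ℕ) : ℤ)) ∣ (Q : ℤ) := by
      rw [pow_one]; exact_mod_cast h
    rw [padicNorm.dvd_iff_norm_le] at h2
    have h3 : padicNorm v (Q : ℚ) ≤ (v : ℚ) ^ (-(1 : ℕ) : ℤ) := by exact_mod_cast h2
    refine h3.trans ?_
    rw [zpow_neg, Nat.cast_one, zpow_one, one_div]
    exact inv_anti₀ (by norm_num) v2
  have n0 : 0 ≤ padicNorm v (Q : ℚ) := padicNorm.nonneg _
  induction m with
  | zero => simp
  | succ m ih =>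
    have e1 : padicNorm v (((Q : ℚ) ^ (m + 1))⁻¹) =
        padicNorm v (((Q : ℚ) ^ m)⁻¹) * padicNorm v ((Q : ℚ)⁻¹) := by
      rw [pow_succ, mul_inv, padicNorm.mul]
    have e2 : padicNorm v ((Q : ℚ)⁻¹) * padicNorm v (Q : ℚ) = 1 := by
      rw [← padicNorm.mul, inv_mul_cancel₀ Q0, padicNorm.one]
    have m0 : 0 ≤ padicNorm v ((Q : ℚ)⁻¹) := padicNorm.nonneg _
    have h4 : 2 ≤ padicNorm v ((Q : ℚ)⁻¹) := by nlinarith
    rw [e1, pow_succ]
    exact mul_le_mul ih h4 (by norm_num) (padicNorm.nonneg _)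

theorem stp_int (hvp : ¬ v ∣ p) (ha : ∀ r, padicNorm v (a r) ≤ 1)
    (hb : ∀ r, padicNorm v (b r) ≤ 1) {n : ℚ} (hn : padicNorm v n ≤ 1) :
    padicNorm v (stp p a b n) ≤ 1 := by
  have p1 : padicNorm v ((p : ℚ)⁻¹) = 1 := by
    have h := norm_p (v := v) hvp
    have p0 : (p : ℚ) ≠ 0 := by
      intro h0
      rw [h0, padicNorm.zero] at h
      exact zero_ne_one h
    have h2 : padicNorm v ((p : ℚ)⁻¹) * padicNorm v (p : ℚ) = 1 := by
      rw [← padicNorm.mul, inv_mul_cancel₀ p0, padicNorm.one]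
    rwa [h, mul_one] at h2
  set s : ℕ := (dig p (a (dig p n) + b (dig p n) * n)).val with hs
  have e : stp p a b n = (a (dig p n) - s) / p + b (dig p n) * n * (p : ℚ)⁻¹ := by
    unfold stp
    rw [← hs]
    ring
  rw [e]
  refine padicNorm.nonarchimedean.trans (max_le (norm_cst hvp (ha _) le_rfl s) ?_)
  rw [padicNorm.mul, padicNorm.mul, p1, mul_one]
  exact mul_le_one₀ (hb _) (padicNorm.nonneg _) hn

end

/-- a cycle of high level -/
theorem cyc_key (hp : 2 ≤ p) (hF : IsSys p a b) (hU : UltPer p a b) {Da Q : ℕ}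
    (hDa : ∀ r, (a r).den ∣ Da) (hQ : ∀ r, (b r).den ∣ Q) (Da0 : 0 < Da) (Q0 : 0 < Q)
    (Qp : Q.Coprime p) {m : ℕ} (hm : Da < 2 ^ m) :
    ∃ (y : ℚ) (P : ℕ), 0 < P ∧ (stp p a b)^[P] y = y ∧ y.den.Coprime p ∧
      (∀ i < P, ∀ j < P, (stp p a b)^[i] y = (stp p a b)^[j] y → i = j) ∧
      (∀ i, ∀ v, Mono p b v → padicNorm v (b (dig p ((stp p a b)^[i] y))) = 1) ∧
      (∀ v, Mono p b v → (∃ r, padicNorm v (b r) ≠ 1) → (2 : ℚ) ^ m ≤ padicNorm v y) ∧
      (∀ v : ℕ, v.Prime → ¬ v ∣ Q * Da → ∀ i, ¬ v ∣ ((stp p a b)^[i] y).den) := by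
  set n : ℚ := ((Q : ℚ) ^ m)⁻¹ with hn
  have Qm : ((Q : ℚ) ^ m) = ((Q ^ m : ℕ) : ℚ) := by push_cast; rfl
  have hnI : n.den.Coprime p := by
    rw [hn, Qm]
    refine I_inv (by exact_mod_cast (pow_pos Q0 m).ne') ?_
    rw [Rat.num_natCast, Int.natAbs_natCast]
    exact Nat.Coprime.pow_left m Qp
  obtain ⟨N, P', hP', hc⟩ := cyc_of hp hF hU hnI
  set y : ℚ := (stp p a b)^[N] n with hy
  have hper : Function.IsPeriodicPt (stp p a b) P' y := hc
  have hPpos : 0 < Function.minimalPeriod (stp p a b) y := hper.minimalPeriod_pos hP'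
  have hcyc : (stp p a b)^[Function.minimalPeriod (stp p a b) y] y = y :=
    Function.iterate_minimalPeriod
  have hDa' : ∀ v : ℕ, v.Prime → ∀ r, padicNorm v (a r) ≤ Da := by
    intro v hv r
    have : Fact v.Prime := ⟨hv⟩
    refine (den_norm (v := v) (a r)).1.trans ?_
    exact_mod_cast Nat.le_of_dvd Da0 (hDa r)
  have Da1 : (1 : ℚ) ≤ Da := by exact_mod_cast Da0
  have hm' : (Da : ℚ) < 2 ^ m := by exact_mod_cast hm
  -- levels
  have lev : ∀ v, Mono p b v → (∃ r, padicNorm v (b r) ≠ 1) → ∀ k,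
      (2 : ℚ) ^ m ≤ padicNorm v ((stp p a b)^[k] n) := by
    intro v hv ⟨r, hr⟩ k
    have : Fact v.Prime := ⟨hv.1⟩
    have h1 : v ∣ Q := by
      have h2 : ¬ padicNorm v (b r) ≤ 1 := fun h => hr (le_antisymm h (hv.2.2 r))
      rw [norm_le_one, not_not] at h2
      exact h2.trans (hQ r)
    have h2 := norm_start m h1 Q0.ne'
    rw [← hn] at h2
    exact h2.trans (it_norm hv.2.1 Da1 (hDa' v hv.1) hv.2.2 (lt_of_lt_of_le hm' h2) k)
  have ey : ∀ i, (stp p a b)^[i] y = (stp p a b)^[i + N] n := fun i => by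
    rw [hy, ← Function.iterate_add_apply]
  refine ⟨y, _, hPpos, hcyc, it_I hp hF hnI N, ?_, ?_, ?_, ?_⟩
  · intro i hi j hj hij
    exact Function.iterate_injOn_Iio_minimalPeriod (Set.mem_Iio.2 hi) (Set.mem_Iio.2 hj) hij
  · intro i v hv
    by_cases hr : ∃ r, padicNorm v (b r) ≠ 1
    · have : Fact v.Prime := ⟨hv.1⟩
      have h1 := lev v hv hr (i + N)
      rw [← ey] at h1
      refine cyc_norm hv.2.1 Da1 (hDa' v hv.1) hv.2.2 (lt_of_lt_of_le hm' h1) hPpos ?_
      rw [← Function.iterate_add_apply, add_comm, Function.iterate_add_apply, hcyc]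
    · push Not at hr
      exact hr _
  · intro v hv hr
    exact lev v hv hr N
  · intro v hv hvS i
    have : Fact v.Prime := ⟨hv⟩
    have hQ' : ¬ v ∣ Q := fun h => hvS (h.mul_right _)
    have hD' : ¬ v ∣ Da := fun h => hvS (h.mul_left _)
    by_cases hvp : v ∣ p
    · intro h
      have h1 := it_I hp hF (it_I hp hF hnI N) i
      exact hv.one_lt.ne' (Nat.eq_one_of_dvd_coprimes h1 h hvp)
    · rw [ey, ← norm_le_one]
      have ha1 : ∀ r, padicNorm v (a r) ≤ 1 := fun r =>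
        norm_le_one.2 fun h => hD' (h.trans (hDa r))
      have hb1 : ∀ r, padicNorm v (b r) ≤ 1 := fun r =>
        norm_le_one.2 fun h => hQ' (h.trans (hQ r))
      generalize i + N = k
      induction k with
      | zero =>
        show padicNorm v n ≤ 1
        rw [norm_le_one, hn, Qm, Rat.den_inv_of_ne_zero (by exact_mod_cast (pow_pos Q0 m).ne'),
          Rat.num_natCast, Int.natAbs_natCast]
        exact fun h => hQ' (hv.dvd_of_dvd_pow h)
      | succ k ih =>
        rw [Function.iterate_succ_apply']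
        exact stp_int hvp ha1 hb1 ih

/-- THE MAIN THEOREM -/
theorem not_up (hp : 2 ≤ p) (hF : IsSys p a b) {l : ℕ} (hl : Mono p b l) {r0 : ZMod p}
    (hr0 : padicNorm l (b r0) ≠ 1) {β : ℚ}
    (h1 : ∀ r, (∀ v, Mono p b v → padicNorm v (b r) = 1) → b r = β ∨ b r = -β) :
    ¬ UltPer p a b := by
  classical
  have := neZ hp
  have : Fact l.Prime := ⟨hl.1⟩
  intro hU
  set Da : ℕ := ∏ r, (a r).den with hDa
  set Q : ℕ := ∏ r, (b r).den with hQ
  have Da0 : 0 < Da := Finset.prod_pos fun r _ => (a r).den_pos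
  have Q0 : 0 < Q := Finset.prod_pos fun r _ => (b r).den_pos
  have Qp : Q.Coprime p := Nat.Coprime.prod_left fun r _ => (hF r).2.1
  have dDa : ∀ r, (a r).den ∣ Da := fun r => Finset.dvd_prod_of_mem _ (mem_univ r)
  have dQ : ∀ r, (b r).den ∣ Q := fun r => Finset.dvd_prod_of_mem _ (mem_univ r)
  have p0 : (p : ℚ) ≠ 0 := by
    have : p ≠ 0 := by omega
    exact_mod_cast this
  have pp : (0 : ℚ) < p := by
    have : 0 < p := by omega
    exact_mod_cast this
  -- the multiplier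
  obtain ⟨β0, βp⟩ : β ≠ 0 ∧ |β / p| ≠ 1 := by
    obtain ⟨y, P, -, -, -, -, hdig, -, -⟩ := cyc_key hp hF hU dDa dQ Da0 Q0 Qp
      (m := Da) Nat.lt_two_pow_self
    have h2 := h1 _ (hdig 0)
    have h3 := (hF (dig p ((stp p a b)^[0] y))).2.2
    generalize dig p ((stp p a b)^[0] y) = r at h2 h3
    have h4 : |b r| = |β| := by
      rcases h2 with h2 | h2 <;> rw [h2]
      rw [abs_neg]
    have h5 := unit_ne hp h3
    refine ⟨fun h => ?_, fun h => ?_⟩
    · rw [h, abs_zero, abs_eq_zero] at h4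
      exact h5 h4
    · rw [abs_div, abs_of_pos pp, div_eq_one_iff_eq p0, ← h4] at h
      have h6 : |(b r)| = ((p : ℕ) : ℚ) := h
      have h7 : (b r).num.natAbs = p := by
        rcases abs_choice (b r) with h8 | h8
        · rw [h8] at h6
          rw [h6, Rat.num_natCast, Int.natAbs_natCast]
        · rw [h8] at h6
          have h9 : b r = -((p : ℕ) : ℚ) := by rw [← h6, neg_neg]
          rw [h9, Rat.neg_num, Rat.num_natCast, Int.natAbs_neg, Int.natAbs_natCast]
      rw [h7, Nat.coprime_self] at h3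
      omega
  -- constants
  obtain ⟨K, K0, hK⟩ := den_cyc β β0 βp Da (Q * Da) (mul_ne_zero Q0.ne' Da0.ne')
  obtain ⟨C, hC⟩ := exists_nat_ge ((∑ r, |a r| + 1) / |(|β / p| - 1)|)
  obtain ⟨k, hk⟩ : ∃ k : ℕ, (p - 1) ^ k * (4 * C * K) ≤ p ^ k := by
    have hlt : ((p - 1 : ℕ) : ℝ) / p < 1 := by
      have : (0 : ℝ) < p := by
        have : 0 < p := by omega
        exact_mod_cast this
      rw [div_lt_one this]
      exact_mod_cast Nat.sub_lt (by omega) one_pos
    obtain ⟨k, hk⟩ := exists_pow_lt_of_lt_one (show (0 : ℝ) < 1 / (4 * C * K + 1) by positivity)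
      hlt
    refine ⟨k, ?_⟩
    have hpp : (0 : ℝ) < (p : ℝ) ^ k := by
      have : (0 : ℝ) < p := by
        have : 0 < p := by omega
        exact_mod_cast this
      positivity
    rw [div_pow, div_lt_div_iff₀ hpp (by positivity), one_mul] at hk
    have h2 : ((p - 1 : ℕ) : ℝ) ^ k * (4 * C * K) ≤ (p : ℝ) ^ k := by
      have h3 : (0 : ℝ) ≤ ((p - 1 : ℕ) : ℝ) ^ k := by positivity
      nlinarith
    exact_mod_cast h2
  obtain ⟨m, hm⟩ : ∃ m : ℕ, Da + K * (2 * (p - 1) ^ k) < 2 ^ m := ⟨_, Nat.lt_two_pow_self⟩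
  obtain ⟨y, P, hP, hcyc, hyI, hinj, hdig, hlev, hden⟩ := cyc_key hp hF hU dDa dQ Da0 Q0 Qp
    (m := m) (by omega)
  set Y : ℕ → ℚ := fun i => (stp p a b)^[i] y with hY
  set s : ℕ → ℕ := fun i => (dig p (a (dig p (Y i)) + b (dig p (Y i)) * Y i)).val with hs
  set c : ℕ → ℚ := fun i => (a (dig p (Y i)) - s i) / p with hcd
  set δ : ℕ → ℚ := fun i => if b (dig p (Y i)) = β then 1 else -1 with hδ
  have hR : Rcs Y c δ (β / p) P := by
    refine ⟨fun i => ?_, fun i => ?_, fun i => ?_, hP⟩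
    · have h2 : b (dig p (Y i)) = δ i * β := by
        rcases h1 _ (hdig i) with h3 | h3
        · simp [hδ, hY, h3]
        · by_cases h4 : b (dig p (Y i)) = β
          · simp [hδ, h4]
          · simp only [hδ, if_neg h4]
            rw [show b (dig p (Y i)) = -β from h3]; ring
      have e : Y (i + 1) = (a (dig p (Y i)) + b (dig p (Y i)) * Y i - (s i : ℚ)) / p := by
        simp only [hY, Function.iterate_succ_apply']
        rfl
      rw [e, h2]
      simp only [hcd]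
      ring
    · simp only [hδ]
      split_ifs
      · exact Or.inl rfl
      · exact Or.inr rfl
    · simp only [hY]
      rw [Function.iterate_add_apply, hcyc]
  have hden' : ∀ j, (Y j).den ∣ K * P := by
    refine hK Y c δ P hR ?_ ?_ ?_
    · intro v hv hvp i
      have : Fact v.Prime := ⟨hv⟩
      refine norm_cst hvp ?_ (by exact_mod_cast Da0) _
      refine (den_norm (v := v) _).1.trans ?_
      exact_mod_cast Nat.le_of_dvd Da0 (dDa _)
    · exact fun v hv hvS j => hden v hv hvS j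
    · exact fun j => it_I hp hF hyI j
  have hbd : ∀ j, |Y j| ≤ C := by
    intro j
    refine (hR.bd_re (B := ∑ r, |a r| + 1) ?_ βp j).trans hC
    intro i
    simp only [hcd]
    rw [abs_div, abs_of_pos pp, div_le_iff₀ pp]
    have h2 : (s i : ℚ) ≤ p := by
      have : s i < p := ZMod.val_lt _
      exact_mod_cast this.le
    have h3 : |a (dig p (Y i))| ≤ ∑ r, |a r| :=
      Finset.single_le_sum (f := fun r => |a r|) (fun r _ => abs_nonneg _) (mem_univ _)
    have h4 : |a (dig p (Y i)) - s i| ≤ |a (dig p (Y i))| + s i := by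
      have := abs_sub (a (dig p (Y i))) (s i : ℚ)
      rwa [Nat.abs_cast] at this
    have p1 : (1 : ℚ) ≤ p := by
      have : 1 ≤ p := by omega
      exact_mod_cast this
    have h5 : 0 ≤ ∑ r, |a r| := (abs_nonneg _).trans h3
    nlinarith
  -- counting
  set R : Finset (ZMod p) := univ.filter (fun r => ∀ v, Mono p b v → padicNorm v (b r) = 1)
    with hRd
  have hcard : R.card ≤ p - 1 := by
    have h2 : R ⊆ univ.erase r0 := by
      intro r hr
      rw [hRd, mem_filter] at hr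
      refine mem_erase.2 ⟨fun h => ?_, mem_univ _⟩
      exact hr0 (by rw [← h]; exact hr.2 l hl)
    have h3 := Finset.card_le_card h2
    rwa [card_erase_of_mem (mem_univ _), card_univ, ZMod.card] at h3
  have hz : ∀ i, ∃ z : ℤ, ((K * P : ℕ) : ℚ) * Y i = z := by
    intro i
    obtain ⟨e, he⟩ := hden' i
    refine ⟨e * (Y i).num, ?_⟩
    rw [he]
    push_cast
    rw [← Rat.mul_den_eq_num (Y i)]
    ring
  choose z hz using hz
  have KP : K * P ≠ 0 := mul_ne_zero K0 hP.ne'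
  have hcount := count (k := k) hp KP R hz hbd
    (fun i hi j hj h => hinj i hi j hj h) (w := fun i t => dig p ((stp p a b)^[t] (Y i)))
    (fun i t => by
      rw [hRd, mem_filter]
      refine ⟨mem_univ _, ?_⟩
      have : (stp p a b)^[t] (Y i) = (stp p a b)^[t + i] y := by
        simp only [hY, Function.iterate_add_apply]
      rw [this]
      exact hdig _)
    (fun i j h => dig_pow hp hF k (it_I hp hF hyI i) (it_I hp hF hyI j) h)
  have pk : 0 < p ^ k := by positivity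
  have hfin : P ≤ 2 * (p - 1) ^ k := by
    have h2 : P ≤ (p - 1) ^ k * (2 * C * (K * P) / p ^ k + 1) :=
      hcount.trans (Nat.mul_le_mul_right _ (Nat.pow_le_pow_left hcard k))
    have h3 : (2 * C * (K * P) / p ^ k) * p ^ k ≤ 2 * C * (K * P) := Nat.div_mul_le_self _ _
    have h4 : P * p ^ k ≤ (p - 1) ^ k * (2 * C * (K * P) + p ^ k) := by
      calc P * p ^ k ≤ ((p - 1) ^ k * (2 * C * (K * P) / p ^ k + 1)) * p ^ k :=
            Nat.mul_le_mul_right _ h2
        _ = (p - 1) ^ k * ((2 * C * (K * P) / p ^ k) * p ^ k + p ^ k) := by ring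
        _ ≤ (p - 1) ^ k * (2 * C * (K * P) + p ^ k) :=
            Nat.mul_le_mul_left _ (Nat.add_le_add_right h3 _)
    have h5 : ((p - 1) ^ k * (4 * C * K)) * P ≤ p ^ k * P := Nat.mul_le_mul_right _ hk
    have h6 : 2 * (P * p ^ k) ≤ P * p ^ k + 2 * (p - 1) ^ k * p ^ k := by
      calc 2 * (P * p ^ k) ≤ 2 * ((p - 1) ^ k * (2 * C * (K * P) + p ^ k)) :=
            Nat.mul_le_mul_left _ h4
        _ = ((p - 1) ^ k * (4 * C * K)) * P + 2 * (p - 1) ^ k * p ^ k := by ring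
        _ ≤ p ^ k * P + 2 * (p - 1) ^ k * p ^ k := Nat.add_le_add_right h5 _
        _ = P * p ^ k + 2 * (p - 1) ^ k * p ^ k := by ring
    have h7 : P * p ^ k ≤ 2 * (p - 1) ^ k * p ^ k := by omega
    exact Nat.le_of_mul_le_mul_right h7 pk
  -- contradiction
  have h2 := hlev l hl ⟨r0, hr0⟩
  have h3 := (den_norm (v := l) y).1
  have h4 : y.den ≤ K * P := Nat.le_of_dvd (Nat.pos_of_ne_zero KP) (hden' 0)
  have h5 : K * P ≤ K * (2 * (p - 1) ^ k) := Nat.mul_le_mul_left _ hfin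
  have h6 : (2 : ℚ) ^ m ≤ y.den := h2.trans h3
  have h7 : 2 ^ m ≤ y.den := by exact_mod_cast h6
  omega

end Pool.Agent.Helper48.UP
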