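import Pool.Agent.Helper94.UP.Sheet

/-! Row GL of the sheet UP: gluing local approximations with the partition `psi`. -/

open scoped ZeroAtInfty ContDiff NNReal
open Set Filter Topology MeasureTheory

namespace Pool.Agent.Helper94.UP

open Pool.Agent.Helper94.UF Pool.Agent.Helper94.SR

namespace GL48

theorem geo (m : ℕ) : ∑ n ∈ Finset.range m, (1 / 2 : ℝ) ^ (n + 1) ≤ 1 := by
  have h : ∀ m : ℕ, ∑ n ∈ Finset.range m, (1 / 2 : ℝ) ^ (n + 1) = 1 - (1 / 2 : ℝ) ^ m := by
    intro m
    induction m with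
    | zero => simp
    | succ m ih => rw [Finset.sum_range_succ, ih]; ring
  rw [h]
  have : (0 : ℝ) ≤ (1 / 2 : ℝ) ^ m := by positivity
  linarith

end GL48

theorem stGL.{u} (h1 : ST_PU.{u}) (h2 : ST_LG.{u}) (h3 : ST_GA.{u}) : ST_GL.{u} := by
  intro k X _ _ q M hM hq1 hq2 g b B c r h e L1 κ ε hL1 hκ hε hb hb01 hB hbL hr hb1 hb0 hcov
    hh hhL hhg he heε hsum
  obtain ⟨p1, p2, p3, p4⟩ := h1 (k := k) b B hb hb01 hB hbL
  have key : ∀ x N, ‖x - c N‖ < r N / 2 →
      (Kg b h x = ∑ n ∈ Finset.range (N + 1), psi b n x * h n x) ∧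
      ∑ n ∈ Finset.range (N + 1), psi b n x = 1 := by
    intro x N hx
    obtain ⟨a1, a2⟩ := h3 b h x N (hb1 N x hx.le)
    refine ⟨a1, ?_⟩
    rw [p3, a2, sub_zero]
  have hopen : ∀ z N, ‖z - c N‖ < r N / 2 → ∀ᶠ x in 𝓝 z, ‖x - c N‖ < r N / 2 := by
    intro z N hz
    have hc : Continuous fun x : X => ‖x - c N‖ := by fun_prop
    exact (isOpen_lt hc continuous_const).mem_nhds hz
  refine ⟨?_, ?_, ?_⟩
  · rw [contDiff_iff_contDiffAt]
    intro z
    obtain ⟨N, hN⟩ := hcov z
    have hc : ContDiff ℝ k (fun x => ∑ n ∈ Finset.range (N + 1), psi b n x * h n x) :=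
      ContDiff.sum fun n _ => (p1 n).mul (hh n)
    refine hc.contDiffAt.congr_of_eventuallyEq ?_
    filter_upwards [hopen z N hN] with x hx
    exact (key x N hx).1
  · apply h2 q (Kg b h) (L1 + κ) (by positivity)
    intro z
    obtain ⟨N, hN⟩ := hcov z
    have hd : ∀ n, ∃ δ : ℝ, 0 < δ ∧ ((∀ x, ‖x - z‖ < δ → ‖x - c n‖ ≤ r n) ∨
        ∀ x, ‖x - z‖ < δ → 3 / 4 * r n ≤ ‖x - c n‖) := by
      intro n
      by_cases hz : ‖z - c n‖ < r n
      · refine ⟨r n - ‖z - c n‖, by linarith, Or.inl fun x hx => ?_⟩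
        have : ‖x - c n‖ ≤ ‖x - z‖ + ‖z - c n‖ := norm_sub_le_norm_sub_add_norm_sub x z (c n)
        linarith
      · refine ⟨r n / 4, by have := hr n; linarith, Or.inr fun x hx => ?_⟩
        have h5 : ‖z - c n‖ ≤ ‖z - x‖ + ‖x - c n‖ := norm_sub_le_norm_sub_add_norm_sub z x (c n)
        rw [norm_sub_rev z x] at h5
        have h6 := not_lt.1 hz
        linarith
    choose δ hδ hδ' using hd
    have hev : ∀ᶠ x in 𝓝 z, ‖x - c N‖ < r N / 2 ∧
        ∀ n ∈ Finset.range (N + 1), ‖x - z‖ < δ n := by
      refine (hopen z N hN).and ((Filter.eventually_all_finset _).2 fun n _ => ?_)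
      have hc : Continuous fun x : X => ‖x - z‖ := by fun_prop
      exact (isOpen_lt hc continuous_const).mem_nhds (by simpa using hδ n)
    obtain ⟨ρ, hρ, hball⟩ := Metric.eventually_nhds_iff.1 hev
    refine ⟨ρ, hρ, fun x y hx hy => ?_⟩
    obtain ⟨hxN, hxd⟩ := @hball x (by rwa [dist_eq_norm])
    obtain ⟨hyN, hyd⟩ := @hball y (by rwa [dist_eq_norm])
    obtain ⟨kx, sx⟩ := key x N hxN
    obtain ⟨ky, sy⟩ := key y N hyN
    have e1 : Kg b h x - Kg b h y =
        ∑ n ∈ Finset.range (N + 1), psi b n x * (h n x - h n y) +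
        ∑ n ∈ Finset.range (N + 1), (psi b n x - psi b n y) * (h n y - g y) := by
      have e2 : ∑ n ∈ Finset.range (N + 1), (psi b n x - psi b n y) * (h n y - g y) =
          ∑ n ∈ Finset.range (N + 1), (psi b n x - psi b n y) * h n y -
          (∑ n ∈ Finset.range (N + 1), psi b n x -
            ∑ n ∈ Finset.range (N + 1), psi b n y) * g y := by
        rw [← Finset.sum_sub_distrib, Finset.sum_mul, ← Finset.sum_sub_distrib]
        exact Finset.sum_congr rfl fun n _ => by ring
      rw [e2, sx, sy, sub_self, zero_mul, sub_zero, kx, ky, ← Finset.sum_add_distrib,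
        ← Finset.sum_sub_distrib]
      exact Finset.sum_congr rfl fun n _ => by ring
    have hqxy : 0 ≤ q (x - y) := apply_nonneg q _
    have e3 : |∑ n ∈ Finset.range (N + 1), psi b n x * (h n x - h n y)| ≤ L1 * q (x - y) := by
      calc |∑ n ∈ Finset.range (N + 1), psi b n x * (h n x - h n y)|
          ≤ ∑ n ∈ Finset.range (N + 1), |psi b n x * (h n x - h n y)| :=
            Finset.abs_sum_le_sum_abs _ _
        _ ≤ ∑ n ∈ Finset.range (N + 1), psi b n x * (L1 * q (x - y)) :=
            Finset.sum_le_sum fun n _ => by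
              rw [abs_mul, abs_of_nonneg (p2 n x)]
              exact mul_le_mul_of_nonneg_left (hhL n x y) (p2 n x)
        _ = L1 * q (x - y) := by rw [← Finset.sum_mul, sx, one_mul]
    have e4 : ∀ n ∈ Finset.range (N + 1), |(psi b n x - psi b n y) * (h n y - g y)| ≤
        κ * (1 / 2) ^ (n + 1) * q (x - y) := by
      intro n hn
      rcases hδ' n with hA | hA
      · have hy1 := hhg n y (hA y (hyd n hn))
        have hS : 0 ≤ ∑ m ∈ Finset.range (n + 1), B m := Finset.sum_nonneg fun m _ => hB m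
        rw [abs_mul]
        calc |psi b n x - psi b n y| * |h n y - g y|
            ≤ ((∑ m ∈ Finset.range (n + 1), B m) * (M * q (x - y))) * e n := by
              apply mul_le_mul _ hy1 (abs_nonneg _) (by positivity)
              exact (p4 n x y).trans (mul_le_mul_of_nonneg_left (hq2 _) hS)
          _ = (e n * (∑ m ∈ Finset.range (n + 1), B m) * M) * q (x - y) := by ring
          _ ≤ κ * (1 / 2) ^ (n + 1) * q (x - y) := mul_le_mul_of_nonneg_right (hsum n) hqxy
      · have vx : psi b n x = 0 := by simp [psi, hb0 n x (hA x (hxd n hn))]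
        have vy : psi b n y = 0 := by simp [psi, hb0 n y (hA y (hyd n hn))]
        rw [vx, vy, sub_self, zero_mul, abs_zero]
        positivity
    have e5 : |∑ n ∈ Finset.range (N + 1), (psi b n x - psi b n y) * (h n y - g y)| ≤
        κ * q (x - y) := by
      calc |∑ n ∈ Finset.range (N + 1), (psi b n x - psi b n y) * (h n y - g y)|
          ≤ ∑ n ∈ Finset.range (N + 1), |(psi b n x - psi b n y) * (h n y - g y)| :=
            Finset.abs_sum_le_sum_abs _ _
        _ ≤ ∑ n ∈ Finset.range (N + 1), κ * (1 / 2) ^ (n + 1) * q (x - y) :=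
            Finset.sum_le_sum e4
        _ = κ * q (x - y) * ∑ n ∈ Finset.range (N + 1), (1 / 2 : ℝ) ^ (n + 1) := by
            rw [Finset.mul_sum]
            exact Finset.sum_congr rfl fun n _ => by ring
        _ ≤ κ * q (x - y) * 1 :=
            mul_le_mul_of_nonneg_left (GL48.geo (N + 1)) (by positivity)
        _ = κ * q (x - y) := mul_one _
    rw [e1]
    calc |∑ n ∈ Finset.range (N + 1), psi b n x * (h n x - h n y) +
          ∑ n ∈ Finset.range (N + 1), (psi b n x - psi b n y) * (h n y - g y)|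
        ≤ |∑ n ∈ Finset.range (N + 1), psi b n x * (h n x - h n y)| +
          |∑ n ∈ Finset.range (N + 1), (psi b n x - psi b n y) * (h n y - g y)| :=
          abs_add_le _ _
      _ ≤ L1 * q (x - y) + κ * q (x - y) := add_le_add e3 e5
      _ = (L1 + κ) * q (x - y) := by ring
  · intro x
    obtain ⟨N, hN⟩ := hcov x
    obtain ⟨kx, sx⟩ := key x N hN
    have e1 : Kg b h x - g x = ∑ n ∈ Finset.range (N + 1), psi b n x * (h n x - g x) := by
      have e2 : ∑ n ∈ Finset.range (N + 1), psi b n x * (h n x - g x) =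
          ∑ n ∈ Finset.range (N + 1), psi b n x * h n x -
          (∑ n ∈ Finset.range (N + 1), psi b n x) * g x := by
        rw [Finset.sum_mul, ← Finset.sum_sub_distrib]
        exact Finset.sum_congr rfl fun n _ => by ring
      rw [e2, sx, one_mul, kx]
    rw [e1]
    calc |∑ n ∈ Finset.range (N + 1), psi b n x * (h n x - g x)|
        ≤ ∑ n ∈ Finset.range (N + 1), |psi b n x * (h n x - g x)| :=
          Finset.abs_sum_le_sum_abs _ _
      _ ≤ ∑ n ∈ Finset.range (N + 1), psi b n x * ε :=
          Finset.sum_le_sum fun n _ => by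
            by_cases hxn : ‖x - c n‖ ≤ r n
            · rw [abs_mul, abs_of_nonneg (p2 n x)]
              exact mul_le_mul_of_nonneg_left ((hhg n x hxn).trans (heε n)) (p2 n x)
            · have v : b n x = 0 := hb0 n x (by
                have := hr n
                linarith [not_le.1 hxn])
              have w : psi b n x = 0 := by simp [psi, v]
              rw [w, zero_mul, zero_mul, abs_zero]
      _ = ε := by rw [← Finset.sum_mul, sx, one_mul]

end Pool.Agent.Helper94.UP
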